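import Pool.Agent.Helper17.DF.Geo

set_option autoImplicit false

/-! # DG-1: adjacency of faces -/

namespace Pool.Agent.Helper17.CT
open Function

section
variable {D : Type} [Finite D] {M : CMap D}

/-- `faces2` -/
theorem adj2 (hN : Nice M) {x y : D} (h : M.Face x y) (h' : M.Face (M.a x) (M.a y)) : x = y :=
  faces2 M hN.pl hN.con hN.nfa h h'

/-- Two edges `x`, `y` of a face whose other sides are adjacent (or equal) across `w` are
consecutive. -/
theorem adj3 (hN : Nice M) {x y w : D} (h : M.Face x y) (h1 : M.Face (M.a x) w)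
    (h2 : M.Face (M.a w) (M.a y)) : M.f y = x ∨ M.f x = y := by
  have h3 : M.Face (M.a (M.a y)) x := by
    rw [M.a2]
    exact face_symm M h
  rcases faces3 M hN.pl hN.c4 hN.nfa h1 h2 h3 with ⟨e1, e2⟩ | ⟨e1, _⟩
  · left
    show M.s (M.a y) = x
    rw [e2, e1, M.s3]
  · right
    rw [M.a2] at e1
    exact e1.symm

omit [Finite D] in
/-- the faces at a vertex are adjacent -/
theorem vtx3 {x y : D} (h : M.VEq x y) :
    y = x ∨ (y = M.s x ∧ M.Face (M.a x) y) ∨ (x = M.s y ∧ M.Face (M.a y) x) := by
  rcases h with h | h | h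
  · exact Or.inl h
  · right
    left
    refine ⟨h, 1, ?_⟩
    show M.s (M.a (M.a x)) = y
    rw [M.a2, h]
  · right
    right
    have hx : x = M.s y := by rw [h, M.s3]
    refine ⟨hx, 1, ?_⟩
    show M.s (M.a (M.a y)) = x
    rw [M.a2, ← hx]

omit [Finite D] in
theorem iter_inj {x : D} {i j : ℕ} (hi : i < minimalPeriod M.f x) (hj : j < minimalPeriod M.f x)
    (h : (M.f)^[i] x = (M.f)^[j] x) : i = j :=
  Function.iterate_injOn_Iio_minimalPeriod (Set.mem_Iio.2 hi) (Set.mem_Iio.2 hj) h

theorem face_lt {x y : D} (h : M.Face x y) : ∃ i < minimalPeriod M.f x, (M.f)^[i] x = y := by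
  obtain ⟨n, rfl⟩ := h
  exact ⟨n % minimalPeriod M.f x, Nat.mod_lt _ (M.period_pos x),
    iterate_mod_minimalPeriod_eq⟩

theorem period_face {x y : D} (h : M.Face x y) : minimalPeriod M.f y = minimalPeriod M.f x := by
  obtain ⟨n, rfl⟩ := h
  exact period_shift M x n

omit [Finite D] in
/-- the neighbour across `y` is also reached around the next vertex -/
theorem two_step (y : D) : M.f (M.a (M.f (M.a (M.f y)))) = M.a y := by
  unfold CMap.f
  simp only [M.a2, M.s3]

omit [Finite D] in
/-- `f (a (f (a y))) = a z` if `f z = y` (the neighbour number one of the face of `a y` is the face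
across the edge before `y`) -/
theorem nbr_one {y z : D} (h : M.f z = y) : M.f (M.a (M.f (M.a y))) = M.a z := by
  subst h
  unfold CMap.f
  simp only [M.a2, M.s3]

omit [Finite D] in
/-- the last neighbour of the face of `a y`: the face across the edge `f y` -/
theorem nbr_last {y : D} {c : ℕ} (hc : minimalPeriod M.f (M.a y) = c + 1) :
    M.f (M.a (M.f y)) = M.a ((M.f)^[c] (M.a y)) := by
  have h : M.f ((M.f)^[c] (M.a y)) = M.a y := by
    rw [← Function.iterate_succ_apply' M.f c (M.a y), show c.succ = c + 1 from rfl, ← hc]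
    exact iterate_minimalPeriod
  set u := (M.f)^[c] (M.a y) with hu
  have h1 : M.s (M.a u) = M.a y := h
  show M.s (M.a (M.a (M.s (M.a y)))) = M.a u
  rw [M.a2, ← h1, M.s3]

end

end Pool.Agent.Helper17.CT
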