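import Pool.Agent.Helper75.DF.Adj
import Pool.Agent.Helper33.DG.Bra

set_option autoImplicit false

/-! # DG-7a: far_hub -/

namespace Pool.Agent.Helper17.CT
open Function

section
variable {D : Type} [Finite D] {M : CMap D}

theorem far_hub (hG : ∀ p ∈ bra, Good p.1 p.2) (hp : M.Planar) (γ : D → Fin 3)
    (hT : M.Tri γ) (h4 : M.Cyc4) (hD : 12 < Nat.card D) (e : D) (he : minimalPeriod M.f e ≤ 5)
    (hF : Far M e) (m : ℕ) (hm : 2 ≤ m) (hm' : m + 2 ≤ minimalPeriod M.f e) :
    minimalPeriod M.f e = 5 ∧ minimalPeriod M.f (M.a ((M.f)^[m] e)) = 6 ∧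
      ∀ i, 1 ≤ i → i < 6 → minimalPeriod M.f (M.a ((M.f)^[i] (M.a ((M.f)^[m] e)))) = 6 := by
  have hN : Nice M := Nice.of hp γ hT h4
  -- (1)
  have k1 : ∀ i, ¬ M.Face (M.a e) (M.a ((M.f)^[i] (M.a ((M.f)^[m] e)))) := by
    intro i h
    rcases adj3 hN (x := e) (y := (M.f)^[m] e) (w := M.a ((M.f)^[i] (M.a ((M.f)^[m] e))))
      ⟨m, rfl⟩ h (by rw [M.a2]; exact face_symm M ⟨i, rfl⟩) with h1 | h1
    · have h2 : (M.f)^[m + 1] e = (M.f)^[0] e := by
        rw [Function.iterate_succ_apply', h1]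
        rfl
      have := iter_inj (by omega) (by omega) h2
      omega
    · have h2 : (M.f)^[1] e = (M.f)^[m] e := h1
      have := iter_inj (by omega) (by omega) h2
      omega
  -- (4)
  have k4 : ∀ i, minimalPeriod M.f (M.a ((M.f)^[i] (M.a ((M.f)^[m] e)))) ≤ 6 := by
    intro i
    by_contra h
    exact k1 i (hF.far m i (by omega))
  -- (2)
  have k2 : minimalPeriod M.f (M.a ((M.f)^[m] e)) ≤ 6 := by
    by_contra h
    set y := (M.f)^[m] e with hy
    have h1 := two_step (M := M) y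
    have h2 : M.Face (M.a (M.f (M.a (M.f y)))) (M.a y) := ⟨1, h1⟩
    have h3 := period_face h2
    have h4 : (M.a ((M.f)^[1] (M.a ((M.f)^[m + 1] e)))) = M.a (M.f (M.a (M.f y))) := by
      rw [Function.iterate_succ_apply' M.f m e]
      rfl
    have h5 := hF.far (m + 1) 1
    rw [h4] at h5
    have h6 := face_trans M (h5 (by omega)) h2
    have h7 := adj2 hN (x := e) (y := y) ⟨m, rfl⟩ h6
    have h8 : (M.f)^[0] e = (M.f)^[m] e := h7
    have := iter_inj (by omega) (by omega) h8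
    omega
  -- (3)
  have k3 : minimalPeriod M.f (M.a ((M.f)^[m] e)) = 6 := by
    by_contra h
    obtain ⟨i, hi⟩ := local7_bra hG hp γ hT h4 hD (M.a ((M.f)^[m] e)) (by omega)
    exact k1 i (hF.far m i hi)
  have h0 : minimalPeriod M.f (M.a ((M.f)^[0] (M.a ((M.f)^[m] e)))) = minimalPeriod M.f e := by
    show minimalPeriod M.f (M.a (M.a ((M.f)^[m] e))) = _
    rw [M.a2]
    exact period_shift M e m
  refine ⟨?_, k3, ?_⟩
  · have h := (hub6_bra hG hp γ hT h4 hD _ k3 k4 0 0 (by omega) (by omega) (by omega)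
      (by omega)).2
    omega
  · intro i hi hi'
    by_contra h
    have h1 := k4 i
    have h2 := (hub6_bra hG hp γ hT h4 hD _ k3 k4 0 i (by omega) hi' (by omega)
      (by omega)).1
    omega

end

end Pool.Agent.Helper17.CT
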